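import Pool.Agent.THS.StmtsT

/-!
# THS row KMO (translation by w multiplies theta by an exponential)
-/

set_option autoImplicit false

open scoped BigOperators

namespace Pool.Agent.THS.H2

/-- The product relation `theta(u+w) theta(u-w) = lam theta(u)^2`. -/
theorem key_rel (hPRD : PrdStatement) (g : ℕ) (τ : Matrix (Fin g) (Fin g) ℂ) (hτ : Siegel τ)
    (w : Fin g → ℂ) (lam : ℂ) (hlam : ∀ c, Thc τ c w = lam * Thc τ c 0) (u : Fin g → ℂ) :
    ths τ 0 (fun i => u i + w i) * ths τ 0 (fun i => u i - w i) = lam * ths τ 0 u ^ 2 := by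
  have e1 := hPRD g τ hτ 0 (fun i => u i + w i) (fun i => u i - w i)
  have e2 := hPRD g τ hτ 0 u u
  have a1 : ∀ c : Fin g → ZMod 2,
      ths ((2 : ℂ) • τ) (fun i => (0 : Fin g → ℝ) i + hv c i)
        (fun i => (u i + w i) + (u i - w i)) = Thc τ c u := by
    intro c
    unfold Thc
    congr 1
    · funext i; simp
    · funext i; ring
  have a2 : ∀ c : Fin g → ZMod 2,
      ths ((2 : ℂ) • τ) (hv c) (fun i => (u i + w i) - (u i - w i)) = Thc τ c w := by
    intro c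
    unfold Thc
    congr 1
    funext i; ring
  have a3 : ∀ c : Fin g → ZMod 2,
      ths ((2 : ℂ) • τ) (fun i => (0 : Fin g → ℝ) i + hv c i)
        (fun i => u i + u i) = Thc τ c u := by
    intro c
    unfold Thc
    congr 1
    · funext i; simp
    · funext i; ring
  have a4 : ∀ c : Fin g → ZMod 2,
      ths ((2 : ℂ) • τ) (hv c) (fun i => u i - u i) = Thc τ c 0 := by
    intro c
    unfold Thc
    congr 1
    funext i; simp
  rw [e1, sq, e2, Finset.mul_sum]
  refine Finset.sum_congr rfl ?_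
  intro c _
  rw [a1 c, a2 c, a3 c, a4 c, hlam c]
  ring

/-- the integer combination has trivial exponential -/
theorem exp_int {g : ℕ} (p q : Fin g → ℤ) :
    Complex.exp (-(2 * Real.pi * Complex.I * ∑ i, (q i : ℂ) * (p i : ℂ))) = 1 := by
  rw [Complex.exp_eq_one_iff]
  refine ⟨-∑ i, q i * p i, ?_⟩
  push_cast
  ring

/-- theta at `u + M w`. -/
theorem theta_period (hTPE : TpeStatement) (g : ℕ) (τ : Matrix (Fin g) (Fin g) ℂ) (hτ : Siegel τ)
    (w : Fin g → ℂ) (M : ℕ) (p q : Fin g → ℤ)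
    (hw : ∀ i, (M : ℂ) * w i = (p i : ℂ) + ∑ j, τ i j * (q j : ℂ)) (u : Fin g → ℂ) :
    ths τ 0 (fun i => u i + (M : ℂ) * w i)
      = Complex.exp (-(Real.pi * Complex.I * ∑ i, ∑ j, (q i : ℂ) * τ i j * (q j : ℂ))
          - 2 * Real.pi * Complex.I * ∑ i, (q i : ℂ) * u i) * ths τ 0 u := by
  have h0 : (fun i => u i + (M : ℂ) * w i)
      = (fun i => (fun i => u i + (p i : ℂ)) i + ∑ j, τ i j * (q j : ℂ)) := by
    funext i
    show u i + (M : ℂ) * w i = (u i + (p i : ℂ)) + ∑ j, τ i j * (q j : ℂ)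
    rw [hw i]; ring
  have h3 := (hTPE g τ hτ.1 0 (fun i => u i + (p i : ℂ)) q).2.2.1
  have h2 := (hTPE g τ hτ.1 0 u p).2.1
  rw [h0, h3, h2]
  have z : (2 * Real.pi * Complex.I * ∑ i, (((0 : Fin g → ℝ) i : ℝ) : ℂ) * (p i : ℂ)) = 0 := by
    simp
  rw [z, Complex.exp_zero, one_mul]
  congr 1
  have hs : ∑ i, (q i : ℂ) * (u i + (p i : ℂ))
      = ∑ i, (q i : ℂ) * u i + ∑ i, (q i : ℂ) * (p i : ℂ) := by
    rw [← Finset.sum_add_distrib]
    refine Finset.sum_congr rfl ?_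
    intro i _
    ring
  rw [hs]
  have hsplit : (-(Real.pi * Complex.I * ∑ i, ∑ j, (q i : ℂ) * τ i j * (q j : ℂ))
      - 2 * Real.pi * Complex.I * (∑ i, (q i : ℂ) * u i + ∑ i, (q i : ℂ) * (p i : ℂ)))
      = (-(Real.pi * Complex.I * ∑ i, ∑ j, (q i : ℂ) * τ i j * (q j : ℂ))
      - 2 * Real.pi * Complex.I * ∑ i, (q i : ℂ) * u i)
      + (-(2 * Real.pi * Complex.I * ∑ i, (q i : ℂ) * (p i : ℂ))) := by ring
  rw [hsplit, Complex.exp_add, exp_int, mul_one]

/-- at a point where theta does not vanish -/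
theorem at_point (hPRD : PrdStatement) (hTPE : TpeStatement) (hSQM : SqmStatement)
    (g : ℕ) (τ : Matrix (Fin g) (Fin g) ℂ) (hτ : Siegel τ)
    (w : Fin g → ℂ) (lam : ℂ) (hlam0 : lam ≠ 0) (hlam : ∀ c, Thc τ c w = lam * Thc τ c 0)
    (M : ℕ) (hM : 0 < M) (p q : Fin g → ℤ)
    (hw : ∀ i, (M : ℂ) * w i = (p i : ℂ) + ∑ j, τ i j * (q j : ℂ)) (u : Fin g → ℂ)
    (hu : ths τ 0 u ≠ 0) :
    ths τ 0 (fun i => u i + w i) ≠ 0 ∧
    (ths τ 0 (fun i => u i + w i)
        * Complex.exp (2 * Real.pi * Complex.I * (∑ i, (q i : ℂ) * u i) / (M : ℂ))) ^ M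
      = Complex.exp (-(Real.pi * Complex.I * ∑ i, ∑ j, (q i : ℂ) * τ i j * (q j : ℂ)))
          / lam ^ (M * (M - 1) / 2) * ths τ 0 u ^ M := by
  set a : ℤ → ℂ := fun j => ths τ 0 (fun i => u i + (j : ℂ) * w i) with ha
  have ha0 : a 0 = ths τ 0 u := by
    simp [ha]
  have ha1 : a 1 = ths τ 0 (fun i => u i + w i) := by
    simp [ha]
  have haM : a (M : ℤ) = Complex.exp (-(Real.pi * Complex.I * ∑ i, ∑ j, (q i : ℂ) * τ i j * (q j : ℂ))
          - 2 * Real.pi * Complex.I * ∑ i, (q i : ℂ) * u i) * ths τ 0 u := by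
    have := theta_period hTPE g τ hτ w M p q hw u
    rw [← this]
    simp [ha]
  have hrec : ∀ j : ℤ, a (j + 1) * a (j - 1) = lam * a j ^ 2 := by
    intro j
    have := key_rel hPRD g τ hτ w lam hlam (fun i => u i + (j : ℂ) * w i)
    have e1 : a (j + 1) = ths τ 0 (fun i => (u i + (j : ℂ) * w i) + w i) := by
      simp only [ha]
      congr 1
      funext i
      push_cast
      ring
    have e2 : a (j - 1) = ths τ 0 (fun i => (u i + (j : ℂ) * w i) - w i) := by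
      simp only [ha]
      congr 1
      funext i
      push_cast
      ring
    rw [e1, e2, this]
  have ha0' : a 0 ≠ 0 := by rw [ha0]; exact hu
  obtain ⟨h1, h2⟩ := hSQM a lam hlam0 ha0' hrec
  refine ⟨by rw [← ha1]; exact h1, ?_⟩
  have h3 := h2 M
  rw [haM, ha0, ha1] at h3
  have hL : lam ^ (M * (M - 1) / 2) ≠ 0 := pow_ne_zero _ hlam0
  have hMc : (M : ℂ) ≠ 0 := by exact_mod_cast hM.ne'
  rw [mul_pow, ← Complex.exp_nat_mul]
  have hexp : (M : ℂ) * (2 * Real.pi * Complex.I * (∑ i, (q i : ℂ) * u i) / (M : ℂ))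
      = 2 * Real.pi * Complex.I * (∑ i, (q i : ℂ) * u i) := by
    field_simp
  rw [hexp]
  set E1 := Complex.exp (-(Real.pi * Complex.I * ∑ i, ∑ j, (q i : ℂ) * τ i j * (q j : ℂ))) with hE1
  set E2 := Complex.exp (2 * Real.pi * Complex.I * (∑ i, (q i : ℂ) * u i)) with hE2
  have hE2' : E2 ≠ 0 := Complex.exp_ne_zero _
  have hE : Complex.exp (-(Real.pi * Complex.I * ∑ i, ∑ j, (q i : ℂ) * τ i j * (q j : ℂ))
          - 2 * Real.pi * Complex.I * ∑ i, (q i : ℂ) * u i) = E1 / E2 := by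
    rw [Complex.exp_sub]
  rw [hE] at h3
  -- h3 : E1 / E2 * θ * θ ^ M = θ * a1 ^ M * L
  have h4 : E1 / E2 * ths τ 0 u ^ M
      = ths τ 0 (fun i => u i + w i) ^ M * lam ^ (M * (M - 1) / 2) := by
    have h5 : ths τ 0 u * (E1 / E2 * ths τ 0 u ^ M)
        = ths τ 0 u * (ths τ 0 (fun i => u i + w i) ^ M * lam ^ (M * (M - 1) / 2)) := by
      calc ths τ 0 u * (E1 / E2 * ths τ 0 u ^ M) = E1 / E2 * ths τ 0 u * ths τ 0 u ^ M := by ring
        _ = ths τ 0 u * ths τ 0 (fun i => u i + w i) ^ M * lam ^ (M * (M - 1) / 2) := h3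
        _ = _ := by ring
    exact mul_left_cancel₀ hu h5
  have h6 : ths τ 0 (fun i => u i + w i) ^ M
      = E1 / E2 * ths τ 0 u ^ M / lam ^ (M * (M - 1) / 2) := by
    rw [h4]; field_simp
  rw [h6]
  field_simp

/-- **Row KMO**. -/
theorem kmo (hPRD : PrdStatement) (hTPE : TpeStatement) (hTLD : TldStatement)
    (hTNV : TnvStatement) (hTCN : TcnStatement) (hSQM : SqmStatement) (hLIN : LinStatement) :
    KmoStatement := by
  intro g τ hτ w lam M p q hM hlam hw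
  have hlam0 : lam ≠ 0 := by
    rintro rfl
    obtain ⟨c, hc⟩ := hTCN g τ hτ w
    exact hc (by rw [hlam c, zero_mul])
  obtain ⟨u0, hu0⟩ := hTNV g τ hτ
  have A := at_point hPRD hTPE hSQM g τ hτ w lam hlam0 hlam M hM p q hw
  refine ⟨ths τ 0 (fun i => u0 i + w i)
        * Complex.exp (2 * Real.pi * Complex.I * (∑ i, (q i : ℂ) * u0 i) / (M : ℂ)) / ths τ 0 u0,
    div_ne_zero (mul_ne_zero (A u0 hu0).1 (Complex.exp_ne_zero _)) hu0, ?_⟩
  intro u1
  set k : ℂ → ℂ := fun t => ths τ 0 (fun i => u0 i + t * (u1 i - u0 i)) with hk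
  set f : ℂ → ℂ := fun t => ths τ 0 (fun i => (u0 i + w i) + t * (u1 i - u0 i))
    * Complex.exp (2 * Real.pi * Complex.I
        * (∑ i, (q i : ℂ) * (u0 i + t * (u1 i - u0 i))) / (M : ℂ)) with hf
  have hkd : Differentiable ℂ k := hTLD g τ hτ 0 u0 (fun i => u1 i - u0 i)
  have hfd : Differentiable ℂ f := by
    refine Differentiable.mul (hTLD g τ hτ 0 (fun i => u0 i + w i) (fun i => u1 i - u0 i)) ?_
    have : Differentiable ℂ (fun t : ℂ => 2 * Real.pi * Complex.I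
        * (∑ i, (q i : ℂ) * (u0 i + t * (u1 i - u0 i))) / (M : ℂ)) := by
      fun_prop
    exact this.cexp
  have hk0 : k 0 = ths τ 0 u0 := by simp [hk]
  have hk1 : k 1 = ths τ 0 u1 := by simp [hk]
  have hf0 : f 0 = ths τ 0 (fun i => u0 i + w i)
        * Complex.exp (2 * Real.pi * Complex.I * (∑ i, (q i : ℂ) * u0 i) / (M : ℂ)) := by
    simp [hf]
  have hf1 : f 1 = ths τ 0 (fun i => u1 i + w i)
        * Complex.exp (2 * Real.pi * Complex.I * (∑ i, (q i : ℂ) * u1 i) / (M : ℂ)) := by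
    simp only [hf]
    have e1 : (fun i => (u0 i + w i) + 1 * (u1 i - u0 i)) = (fun i => u1 i + w i) := by
      funext i; ring
    have e2 : ∀ i, (u0 i + 1 * (u1 i - u0 i)) = u1 i := by
      intro i; ring
    rw [e1]
    simp only [e2]
  have hpow : ∀ t : ℂ, k t ≠ 0 → f t ^ M
      = (Complex.exp (-(Real.pi * Complex.I * ∑ i, ∑ j, (q i : ℂ) * τ i j * (q j : ℂ)))
          / lam ^ (M * (M - 1) / 2)) * k t ^ M := by
    intro t ht
    have := (A (fun i => u0 i + t * (u1 i - u0 i)) ht).2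
    simp only [hf, hk]
    rw [← this]
    have e1 : (fun i => (u0 i + w i) + t * (u1 i - u0 i))
        = (fun i => (u0 i + t * (u1 i - u0 i)) + w i) := by
      funext i; ring
    rw [e1]
  have hlin := hLIN f k M _ hM hfd hkd (by rw [hk0]; exact hu0) hpow 1
  rw [hf1, hf0, hk0, hk1] at hlin
  exact hlin

end Pool.Agent.THS.H2
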